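import Pool.Agent.Q10.PK.Row2

/-!
# Packing equal-length progressions with prime differences

The least `m` such that the progressions `{p, 2p, …, np}`, `p ≤ n` prime, pack into `{1, …, m}`
is asymptotically `n ^ 3 / (6 log n)`.
-/

set_option autoImplicit false

namespace Pool.Agent.Results.MP_a180f1_co.PrimeDifferences

open Filter Topology
open Pool.Agent.Q10.PK (PackInto prog MP)

/-- Let `MP n` be the least `m` such that the sets `B_p = {p, 2p, …, np}`, `p ≤ n` prime, pack into
`{1, …, m}`. Then `MP n * log n / n ^ 3` tends to `1 / 6`. -/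
theorem result :
    Tendsto (fun n : ℕ => (MP n : ℝ) * Real.log n / (n : ℝ) ^ 3) atTop (𝓝 (1 / 6)) :=
  Pool.Agent.Q10.PK.row2

end Pool.Agent.Results.MP_a180f1_co.PrimeDifferences
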